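import Mathlib

/-!
# MP_eab7e5_al : a graded simple strongly graded ring with `C_R(R_e) = Z(R_e)` need not be simple

`B` is the algebra of smooth functions on the torus, `G` the group of its algebra automorphisms,
`A` the ring of (Grothendieck) differential operators on `B`, and `R` is the skew group ring
`A ⋊ G`, realised as a subring of the group ring `End(B)[G]`.
-/

namespace Pool.Agent.Results.MP_eab7e5_al.GradedSimpleNotSimple

/-- `R` is graded by the group `G` with components `𝒜 g`: products of elements of `𝒜 g` and `𝒜 h`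
are in `𝒜 (g h)`, and every element of `R` is in a unique way a finite sum of elements of the
components (`R` is the direct sum of the `𝒜 g`). -/
structure IsGrading {G R : Type} [Group G] [Ring R] (𝒜 : G → AddSubgroup R) : Prop where
  mul_mem : ∀ (g h : G) (a b : R), a ∈ 𝒜 g → b ∈ 𝒜 h → a * b ∈ 𝒜 (g * h)
  decomp : ∀ x : R, ∃! f : G →₀ R, (∀ g, f g ∈ 𝒜 g) ∧ (f.sum fun _ a => a) = x

/-- The grading is strong: `𝒜 (g h)` is generated by the products of elements of `𝒜 g` and
`𝒜 h`. -/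
def IsStrong {G R : Type} [Group G] [Ring R] (𝒜 : G → AddSubgroup R) : Prop :=
  ∀ (g h : G), 𝒜 (g * h) ≤ AddSubgroup.closure {x | ∃ a ∈ 𝒜 g, ∃ b ∈ 𝒜 h, x = a * b}

/-- The two-sided ideal `I` is graded: it is generated as an additive group by its homogeneous
elements. -/
def IsGradedIdeal {G R : Type} [Group G] [Ring R] (𝒜 : G → AddSubgroup R)
    (I : TwoSidedIdeal R) : Prop :=
  ∀ x ∈ I, x ∈ AddSubgroup.closure {y | y ∈ I ∧ ∃ g, y ∈ 𝒜 g}

/-- `R` is graded simple. -/
def IsGradedSimple {G R : Type} [Group G] [Ring R] (𝒜 : G → AddSubgroup R) : Prop :=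
  ∀ I : TwoSidedIdeal R, IsGradedIdeal 𝒜 I → I = ⊥ ∨ I = ⊤

/-- The centralizer of `R_e` in `R` is the centre of `R_e`: an element of `R` commutes with all
elements of `R_e` if and only if it is in `R_e` and commutes with all elements of `R_e`. -/
def CentralizerEqCenter {G R : Type} [Group G] [Ring R] (𝒜 : G → AddSubgroup R) : Prop :=
  ∀ r : R, (∀ a ∈ 𝒜 1, r * a = a * r) ↔ (r ∈ 𝒜 1 ∧ ∀ a ∈ 𝒜 1, r * a = a * r)

section algebra

variable (B : Type) [CommRing B] [Algebra ℝ B]

/-- The endomorphism ring. -/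
abbrev E : Type := Module.End ℝ B

/-- The group of algebra automorphisms. -/
abbrev Au : Type := B ≃ₐ[ℝ] B

variable {B}

/-- Multiplication by `f`. -/
def M (f : B) : E B := LinearMap.mulLeft ℝ f

theorem M_apply (f x : B) : M f x = f * x := rfl

theorem M_mul (f g : B) : M (f * g) = M f * M g := by
  ext x
  simp [M]

/-- The automorphism as a linear map. -/
def rho (g : Au B) : E B := g.toLinearMap

theorem rho_apply (g : Au B) (x : B) : rho g x = g x := rfl

theorem rho_mul (g h : Au B) : rho (g * h) = rho g * rho h := rfl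

theorem rho_one : rho (1 : Au B) = 1 := rfl

theorem rho_mul_inv (g : Au B) : rho g * rho g⁻¹ = 1 := by
  rw [← rho_mul, mul_inv_cancel, rho_one]

theorem rho_inv_mul (g : Au B) : rho g⁻¹ * rho g = 1 := by
  rw [← rho_mul, inv_mul_cancel, rho_one]

theorem rho_M (g : Au B) (f : B) : rho g * M f = M (g f) * rho g := by
  ext x
  simp [M, rho]

/-- Differential operators of order at most `n` in the sense of Grothendieck. -/
def IsDiffOp : ℕ → E B → Prop
  | 0, P => ∀ f, P * M f = M f * P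
  | n + 1, P => ∀ f, IsDiffOp n (P * M f - M f * P)

theorem isDiffOp_zero (n : ℕ) : IsDiffOp n (0 : E B) := by
  induction n with
  | zero => intro f; simp
  | succ n ih => intro f; simpa using ih

theorem IsDiffOp.succ {n : ℕ} {P : E B} (h : IsDiffOp n P) : IsDiffOp (n + 1) P := by
  induction n generalizing P with
  | zero =>
    intro f
    rw [h f, sub_self]
    exact isDiffOp_zero 0
  | succ n ih => exact fun f => ih (h f)

theorem IsDiffOp.mono {n m : ℕ} {P : E B} (h : IsDiffOp n P) (hnm : n ≤ m) : IsDiffOp m P := by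
  induction hnm with
  | refl => exact h
  | step _ ih => exact ih.succ

theorem IsDiffOp.add {n : ℕ} {P Q : E B} (hP : IsDiffOp n P) (hQ : IsDiffOp n Q) :
    IsDiffOp n (P + Q) := by
  induction n generalizing P Q with
  | zero => intro f; rw [add_mul, mul_add, hP f, hQ f]
  | succ n ih =>
    intro f
    have : (P + Q) * M f - M f * (P + Q) = (P * M f - M f * P) + (Q * M f - M f * Q) := by
      rw [add_mul, mul_add]; abel
    rw [this]
    exact ih (hP f) (hQ f)

theorem IsDiffOp.mul_zero {n : ℕ} {P Q : E B} (hP : IsDiffOp n P) (hQ : IsDiffOp 0 Q) :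
    IsDiffOp n (P * Q) ∧ IsDiffOp n (Q * P) := by
  induction n generalizing P with
  | zero =>
    constructor
    · intro f
      rw [mul_assoc, hQ f, ← mul_assoc, hP f, mul_assoc]
    · intro f
      rw [mul_assoc, hP f, ← mul_assoc, hQ f, mul_assoc]
  | succ n ih =>
    constructor
    · intro f
      have : P * Q * M f - M f * (P * Q) = (P * M f - M f * P) * Q := by
        rw [mul_assoc, hQ f, sub_mul]
        simp only [mul_assoc]
      rw [this]
      exact (ih (hP f)).1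
    · intro f
      have : Q * P * M f - M f * (Q * P) = Q * (P * M f - M f * P) := by
        rw [← mul_assoc (M f), ← hQ f, mul_sub]
        simp only [mul_assoc]
      rw [this]
      exact (ih (hP f)).2

theorem isDiffOp_M (f : B) : IsDiffOp 0 (M f) := fun g => by rw [← M_mul, ← M_mul, mul_comm]

theorem IsDiffOp.neg {n : ℕ} {P : E B} (hP : IsDiffOp n P) : IsDiffOp n (-P) := by
  have h : -P = M (-1) * P := by
    ext x
    simp [M_apply]
  rw [h]
  exact (hP.mul_zero (isDiffOp_M _)).2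

theorem IsDiffOp.mul {n m : ℕ} {P Q : E B} (hP : IsDiffOp n P) (hQ : IsDiffOp m Q) :
    IsDiffOp (n + m) (P * Q) := by
  induction n generalizing P Q m with
  | zero =>
    rw [zero_add]
    exact (hQ.mul_zero hP).2
  | succ n ihn =>
    induction m generalizing P Q with
    | zero => exact (hP.mul_zero hQ).1
    | succ m ihm =>
      intro f
      have : P * Q * M f - M f * (P * Q) = P * (Q * M f - M f * Q) + (P * M f - M f * P) * Q := by
        rw [mul_sub, sub_mul]
        simp only [mul_assoc]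
        abel
      rw [this]
      refine IsDiffOp.add (ihm hP (hQ f)) ?_
      have h1 := ihn (hP f) hQ
      show IsDiffOp (n + 1 + m) _
      rw [show n + 1 + m = n + (m + 1) by ring]
      exact h1

theorem IsDiffOp.conj {n : ℕ} {P : E B} (hP : IsDiffOp n P) (g : Au B) :
    IsDiffOp n (rho g * P * rho g⁻¹) := by
  have hM : ∀ f, rho g⁻¹ * M f = M (g⁻¹ f) * rho g⁻¹ := fun f => rho_M g⁻¹ f
  have hM' : ∀ f, M f * rho g = rho g * M (g⁻¹ f) := by
    intro f
    rw [rho_M]
    congr 2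
    exact (AlgEquiv.apply_symm_apply g f).symm
  induction n generalizing P with
  | zero =>
    intro f
    rw [mul_assoc, hM, ← mul_assoc (M f), ← mul_assoc (M f), hM', mul_assoc (rho g) (M (g⁻¹ f)),
      ← hP]
    simp only [mul_assoc]
  | succ n ih =>
    intro f
    have : rho g * P * rho g⁻¹ * M f - M f * (rho g * P * rho g⁻¹) =
        rho g * (P * M (g⁻¹ f) - M (g⁻¹ f) * P) * rho g⁻¹ := by
      rw [mul_assoc (rho g * P), hM, ← mul_assoc (M f), ← mul_assoc (M f), hM', mul_sub, sub_mul]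
      simp only [mul_assoc]
    rw [this]
    exact ih (hP _)

/-- The ring of differential operators. -/
def A (B : Type) [CommRing B] [Algebra ℝ B] : Subring (E B) where
  carrier := {P | ∃ n, IsDiffOp n P}
  mul_mem' := fun ⟨_, hn⟩ ⟨_, hm⟩ => ⟨_, hn.mul hm⟩
  one_mem' := ⟨0, fun f => by rw [one_mul, mul_one]⟩
  add_mem' := fun ⟨n, hn⟩ ⟨m, hm⟩ =>
    ⟨max n m, (hn.mono (le_max_left n m)).add (hm.mono (le_max_right n m))⟩
  zero_mem' := ⟨0, isDiffOp_zero 0⟩
  neg_mem' := fun ⟨_, hn⟩ => ⟨_, hn.neg⟩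

theorem M_mem (f : B) : M f ∈ A B := ⟨0, isDiffOp_M f⟩

theorem conj_mem {P : E B} (hP : P ∈ A B) (g : Au B) : rho g * P * rho g⁻¹ ∈ A B := by
  obtain ⟨n, hn⟩ := hP
  exact ⟨n, hn.conj g⟩

/-- An operator of order `0` is a multiplication. -/
theorem eq_M {P : E B} (hP : IsDiffOp 0 P) : P = M (P 1) := by
  ext x
  have h := congrArg (fun Q : E B => Q 1) (hP x)
  simp only [Module.End.mul_apply, M_apply, mul_one] at h
  rw [h, M_apply, mul_comm]

/-- In a reduced ring, an automorphism that is a differential operator is the identity. -/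
theorem eq_one_of_rho_mem [IsReduced B] (g : Au B) (hg : rho g ∈ A B) : g = 1 := by
  obtain ⟨n, hn⟩ := hg
  have key : ∀ (n : ℕ) (b : B), IsDiffOp n (M b * rho g) → ∀ f, (g f - f) ^ (n + 1) * b = 0 := by
    intro n
    induction n with
    | zero =>
      intro b hb f
      have h1 := congrArg (fun Q : E B => Q 1) (hb f)
      simp only [Module.End.mul_apply, M_apply, rho_apply, mul_one, map_one] at h1
      rw [zero_add, pow_one, sub_mul, sub_eq_zero, mul_comm, h1]
    | succ n ih =>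
      intro b hb f
      have h1 := hb f
      have h2 : M b * rho g * M f - M f * (M b * rho g) = M ((g f - f) * b) * rho g := by
        rw [mul_assoc, rho_M, ← mul_assoc, ← M_mul, ← mul_assoc, ← M_mul, sub_mul]
        ext x
        simp only [LinearMap.sub_apply, Module.End.mul_apply, M_apply]
        ring
      rw [h2] at h1
      have h3 := ih _ h1 f
      rw [pow_succ, mul_assoc]
      exact h3
  have h1 : M (1 : B) * rho g = rho g := by
    ext x
    simp [M_apply]
  ext f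
  have h2 := key n 1 (by rw [h1]; exact hn) f
  rw [mul_one] at h2
  have h3 := pow_eq_zero_iff (n.succ_ne_zero) |>.1 h2
  rw [sub_eq_zero] at h3
  exact h3

open MonoidAlgebra

/-- The group ring `End(B)[G]`. -/
abbrev EG (B : Type) [CommRing B] [Algebra ℝ B] : Type := MonoidAlgebra (E B) (Au B)

/-- Membership in `R`: the coefficient of `g` is in `A g`. -/
def InR (x : EG B) : Prop := ∀ g : Au B, x.coeff g * rho g⁻¹ ∈ A B

theorem inR_zero : InR (0 : EG B) := by
  intro g
  simp only [coeff_zero, Finsupp.coe_zero, Pi.zero_apply, zero_mul]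
  exact zero_mem _

theorem InR.add {x y : EG B} (hx : InR x) (hy : InR y) : InR (x + y) := by
  intro g
  rw [coeff_add, Finsupp.add_apply, add_mul]
  exact add_mem (hx g) (hy g)

theorem InR.neg {x : EG B} (hx : InR x) : InR (-x) := by
  intro g
  have h : (-x).coeff g * rho g⁻¹ = -(x.coeff g * rho g⁻¹) := by
    rw [coeff_neg, Finsupp.neg_apply]
    rfl
  rw [h]
  exact neg_mem (hx g)

theorem inR_sum {ι : Type} (s : Finset ι) (f : ι → EG B) (h : ∀ i ∈ s, InR (f i)) :
    InR (∑ i ∈ s, f i) := by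
  classical
  induction s using Finset.induction_on with
  | empty => simpa using inR_zero
  | insert a s ha ih =>
    rw [Finset.sum_insert ha]
    exact (h a (Finset.mem_insert_self _ _)).add
      (ih fun i hi => h i (Finset.mem_insert_of_mem hi))

theorem inR_single {g : Au B} {P : E B} (h : P * rho g⁻¹ ∈ A B) : InR (single g P : EG B) := by
  intro k
  rw [coeff_single]
  by_cases hk : g = k
  · subst hk
    rw [Finsupp.single_eq_same]
    exact h
  · rw [Finsupp.single_eq_of_ne' hk, zero_mul]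
    exact zero_mem _

theorem mul_mem_aux {g h : Au B} {P Q : E B} (hP : P * rho g⁻¹ ∈ A B) (hQ : Q * rho h⁻¹ ∈ A B) :
    P * Q * rho (g * h)⁻¹ ∈ A B := by
  have h1 : P * Q * rho (g * h)⁻¹ = (P * rho g⁻¹) * (rho g * (Q * rho h⁻¹) * rho g⁻¹) := by
    rw [mul_inv_rev, rho_mul]
    calc P * Q * (rho h⁻¹ * rho g⁻¹) = P * 1 * Q * (rho h⁻¹ * rho g⁻¹) := by rw [mul_one]
      _ = P * (rho g⁻¹ * rho g) * Q * (rho h⁻¹ * rho g⁻¹) := by rw [rho_inv_mul]
      _ = _ := by simp only [mul_assoc]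
  rw [h1]
  exact mul_mem hP (conj_mem hQ g)

theorem InR.mul {x y : EG B} (hx : InR x) (hy : InR y) : InR (x * y) := by
  have h1 : x * y = ∑ g ∈ x.coeff.support, ∑ h ∈ y.coeff.support,
      single (g * h) (x.coeff g * y.coeff h) := by
    conv_lhs => rw [← sum_coeff_single x, ← sum_coeff_single y]
    rw [Finsupp.sum, Finsupp.sum, Finset.sum_mul_sum]
    simp only [single_mul_single]
  rw [h1]
  exact inR_sum _ _ fun g _ => inR_sum _ _ fun h _ => inR_single (mul_mem_aux (hx g) (hy h))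

theorem inR_one : InR (1 : EG B) := by
  rw [one_def]
  apply inR_single
  rw [inv_one, rho_one, mul_one]
  exact one_mem _

/-- The skew group ring `R = A ⋊ G`. -/
def R (B : Type) [CommRing B] [Algebra ℝ B] : Subring (EG B) where
  carrier := {x | InR x}
  mul_mem' := InR.mul
  one_mem' := inR_one
  add_mem' := InR.add
  zero_mem' := inR_zero
  neg_mem' := InR.neg

/-- The homogeneous components. -/
def comp (B : Type) [CommRing B] [Algebra ℝ B] (g : Au B) : AddSubgroup (R B) where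
  carrier := {x | ∀ h, h ≠ g → (x : EG B).coeff h = 0}
  add_mem' := by
    intro x y hx hy h hh
    rw [Subring.coe_add, coeff_add, Finsupp.add_apply, hx h hh, hy h hh, add_zero]
  zero_mem' := by
    intro h _
    rfl
  neg_mem' := by
    intro x hx h hh
    rw [Subring.coe_neg, coeff_neg, Finsupp.neg_apply, hx h hh, neg_zero]

theorem mem_comp {g : Au B} {x : R B} : x ∈ comp B g ↔ ∀ h, h ≠ g → (x : EG B).coeff h = 0 :=
  Iff.rfl

/-- Homogeneous elements. -/
noncomputable def hom (g : Au B) (P : E B) (h : P * rho g⁻¹ ∈ A B) : R B := ⟨single g P, inR_single h⟩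

theorem hom_mem (g : Au B) (P : E B) (h : P * rho g⁻¹ ∈ A B) : hom g P h ∈ comp B g := by
  intro k hk
  show (single g P : EG B).coeff k = 0
  rw [coeff_single, Finsupp.single_eq_of_ne hk]

theorem eq_hom {g : Au B} {x : R B} (hx : x ∈ comp B g) : x = hom g ((x : EG B).coeff g) (x.2 g) := by
  apply Subtype.ext
  show (x : EG B) = single g ((x : EG B).coeff g)
  ext k : 2
  rw [coeff_single]
  by_cases hk : k = g
  · subst hk; rw [Finsupp.single_eq_same]
  · rw [Finsupp.single_eq_of_ne hk, hx k hk]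

theorem hom_mul (g h : Au B) (P Q : E B) (hP : P * rho g⁻¹ ∈ A B) (hQ : Q * rho h⁻¹ ∈ A B) :
    hom g P hP * hom h Q hQ = hom (g * h) (P * Q) (mul_mem_aux hP hQ) := by
  apply Subtype.ext
  show (single g P : EG B) * single h Q = single (g * h) (P * Q)
  rw [single_mul_single]

theorem hom_congr {g h : Au B} {P Q : E B} (hP : P * rho g⁻¹ ∈ A B) (hQ : Q * rho h⁻¹ ∈ A B)
    (h1 : g = h) (h2 : P = Q) : hom g P hP = hom h Q hQ := by
  subst h1
  subst h2
  rfl

theorem coe_sum' {ι : Type} (s : Finset ι) (f : ι → R B) :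
    ((∑ i ∈ s, f i : R B) : EG B) = ∑ i ∈ s, (f i : EG B) := by
  classical
  induction s using Finset.induction_on with
  | empty => simp
  | insert a s ha ih => rw [Finset.sum_insert ha, Finset.sum_insert ha, Subring.coe_add, ih]

theorem coeff_sum_comp (f : Au B →₀ R B) (hf : ∀ g, f g ∈ comp B g) (k : Au B) :
    (((f.sum fun _ a => a : R B) : EG B)).coeff k = ((f k : R B) : EG B).coeff k := by
  classical
  rw [Finsupp.sum, coe_sum', coeff_sum, Finsupp.finsetSum_apply]
  by_cases hk : k ∈ f.support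
  · rw [Finset.sum_eq_single k]
    · intro g _ hg
      exact hf g k (Ne.symm hg)
    · intro h
      exact absurd hk h
  · rw [Finset.sum_eq_zero]
    · rw [Finsupp.notMem_support_iff.1 hk]
      rfl
    · intro g hg
      apply hf g k
      rintro rfl
      exact hk hg

theorem isGrading : IsGrading (comp B) where
  mul_mem := by
    intro g h a b ha hb
    rw [eq_hom ha, eq_hom hb, hom_mul]
    exact hom_mem _ _ _
  decomp := by
    classical
    intro x
    let f : Au B →₀ R B := Finsupp.onFinset (x : EG B).coeff.support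
      (fun g => hom g ((x : EG B).coeff g) (x.2 g)) (by
        intro g hg
        rw [Finsupp.mem_support_iff]
        intro h
        apply hg
        apply Subtype.ext
        show single g ((x : EG B).coeff g) = 0
        rw [h, single_zero])
    have hf : ∀ g, f g ∈ comp B g := fun g => hom_mem g ((x : EG B).coeff g) (x.2 g)
    refine ⟨f, ⟨hf, ?_⟩, ?_⟩
    · apply Subtype.ext
      ext k : 2
      rw [coeff_sum_comp f hf]
      show (single k ((x : EG B).coeff k) : EG B).coeff k = _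
      rw [coeff_single, Finsupp.single_eq_same]
    · rintro f' ⟨hf', rfl⟩
      ext1 g
      have h1 : f' g = hom g ((f' g : EG B).coeff g) ((f' g).2 g) := eq_hom (hf' g)
      have h2 : f g = hom g ((((f'.sum fun _ a => a : R B)) : EG B).coeff g)
        (((f'.sum fun _ a => a : R B)).2 g) := rfl
      rw [h1, h2]
      exact hom_congr _ _ rfl (coeff_sum_comp f' hf' g).symm

theorem rho_mem_A (g : Au B) : rho g * rho g⁻¹ ∈ A B := by
  rw [rho_mul_inv]
  exact one_mem _

theorem isStrong : IsStrong (comp B) := by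
  intro g h x hx
  apply AddSubgroup.subset_closure
  have hx2 := x.2 (g * h)
  have h3 : ((x : EG B).coeff (g * h) * rho h⁻¹) * rho g⁻¹ ∈ A B := by
    rw [mul_inv_rev, rho_mul, ← mul_assoc] at hx2
    exact hx2
  refine ⟨hom g ((x : EG B).coeff (g * h) * rho h⁻¹) h3, hom_mem _ _ _,
    hom h (rho h) (rho_mem_A h), hom_mem _ _ _, ?_⟩
  rw [hom_mul]
  refine (eq_hom hx).trans (hom_congr _ _ rfl ?_)
  rw [mul_assoc, rho_inv_mul, mul_one]

/-- Elements of `A` as elements of `R_e`. -/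
theorem mem_A_aux {P : E B} (hP : P ∈ A B) : P * rho (1 : Au B)⁻¹ ∈ A B := by
  rw [inv_one, rho_one, mul_one]
  exact hP

/-- The centralizer. -/
theorem centralizer [IsReduced B] [Nontrivial B]
    (hcen : ∀ t : B, (∀ P ∈ A B, M t * P = P * M t) → ∃ c : ℝ, t = algebraMap ℝ B c) :
    CentralizerEqCenter (comp B) := by
  intro r
  refine ⟨fun hr => ⟨?_, hr⟩, fun h => h.2⟩
  have key : ∀ g, ∀ P ∈ A B, (r : EG B).coeff g * P = P * (r : EG B).coeff g := by
    intro g P hP
    have h1 := hr (hom 1 P (mem_A_aux hP)) (hom_mem _ _ _)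
    have h2 := congrArg (fun x : R B => (x : EG B).coeff g) h1
    simp only [Subring.coe_mul] at h2
    have h3 : ((r : EG B) * single 1 P).coeff g = (r : EG B).coeff g * P := coeff_mul_single_one _ _ _
    have h4 : (single 1 P * (r : EG B)).coeff g = P * (r : EG B).coeff g := coeff_single_one_mul _ _ _
    rw [← h3, ← h4]
    exact h2
  intro g hg
  set s := (r : EG B).coeff g with hs
  have h0 : IsDiffOp 0 s := fun f => key g (M f) (M_mem f)
  have hsM := eq_M h0
  obtain ⟨c, hc⟩ := hcen (s 1) (fun P hP => by rw [← hsM]; exact key g P hP)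
  by_contra hne
  have hc0 : c ≠ 0 := by
    rintro rfl
    apply hne
    rw [hsM, hc]
    ext x
    simp [M_apply]
  have h5 : s * rho g⁻¹ ∈ A B := r.2 g
  have h6 : rho g⁻¹ ∈ A B := by
    have h7 : rho g⁻¹ = M (algebraMap ℝ B c⁻¹) * (s * rho g⁻¹) := by
      rw [hsM, hc, ← mul_assoc, ← M_mul, ← map_mul, inv_mul_cancel₀ hc0, map_one]
      ext x
      simp [M_apply]
    rw [h7]
    exact mul_mem (M_mem _) h5
  have h8 := eq_one_of_rho_mem g⁻¹ h6
  exact hg (inv_eq_one.1 h8)

theorem hom_add (g : Au B) (P Q : E B) (hP : P * rho g⁻¹ ∈ A B) (hQ : Q * rho g⁻¹ ∈ A B)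
    (hPQ : (P + Q) * rho g⁻¹ ∈ A B) : hom g P hP + hom g Q hQ = hom g (P + Q) hPQ := by
  apply Subtype.ext
  show (single g P : EG B) + single g Q = single g (P + Q)
  rw [single_add]

theorem hom_one : hom (1 : Au B) 1 (mem_A_aux (one_mem _)) = 1 := by
  apply Subtype.ext
  show (single 1 1 : EG B) = 1
  rw [one_def]

/-- Graded simplicity, if `B` has no proper nonzero ideal stable under automorphisms (in the
strong form `hs`). -/
theorem gradedSimple
    (hs : ∀ J : Ideal B, J ≠ ⊥ → (∀ (g : Au B), ∀ f ∈ J, g f ∈ J) → (1 : B) ∈ J) :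
    IsGradedSimple (comp B) := by
  intro I hI
  by_cases hbot : I = ⊥
  · left; exact hbot
  right
  -- a nonzero homogeneous element
  obtain ⟨y, hyI, hy0, g, hyg⟩ : ∃ y : R B, y ∈ I ∧ y ≠ 0 ∧ ∃ g, y ∈ comp B g := by
    by_contra hcon
    push Not at hcon
    apply hbot
    rw [eq_bot_iff]
    intro x hx
    have h1 := hI x hx
    have h2 : AddSubgroup.closure {y : R B | y ∈ I ∧ ∃ g, y ∈ comp B g} ≤ ⊥ := by
      rw [AddSubgroup.closure_le]
      rintro y ⟨hy, g, hg⟩
      by_contra hne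
      exact hcon y hy hne g hg
    have h3 := h2 h1
    rw [AddSubgroup.mem_bot] at h3
    rw [h3]
    exact zero_mem _
  -- the ideal `J` of `A`
  have hlow : ∀ n : ℕ, ∀ P : E B, IsDiffOp n P → P ≠ 0 → (∀ hP : P ∈ A B, hom 1 P (mem_A_aux hP) ∈ I) →
      ∃ f : B, f ≠ 0 ∧ hom 1 (M f) (mem_A_aux (M_mem f)) ∈ I := by
    intro n
    induction n with
    | zero =>
      intro P hP hP0 hPI
      have h1 := eq_M hP
      refine ⟨P 1, ?_, ?_⟩
      · intro h2
        apply hP0
        rw [h1, h2]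
        ext x
        simp [M_apply]
      · have h3 := hPI ⟨0, hP⟩
        rwa [hom_congr (mem_A_aux ⟨0, hP⟩) (mem_A_aux (M_mem (P 1))) rfl h1] at h3
    | succ n ih =>
      intro P hP hP0 hPI
      by_cases hcomm : ∀ f, P * M f = M f * P
      · have h1 := eq_M (P := P) hcomm
        refine ⟨P 1, ?_, ?_⟩
        · intro h2
          apply hP0
          rw [h1, h2]
          ext x
          simp [M_apply]
        · have hPA : P ∈ A B := ⟨_, hP⟩
          have h3 := hPI hPA
          rwa [hom_congr (mem_A_aux hPA) (mem_A_aux (M_mem (P 1))) rfl h1] at h3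
      · push Not at hcomm
        obtain ⟨f, hf⟩ := hcomm
        apply ih (P * M f - M f * P) (hP f) (sub_ne_zero.2 hf)
        intro hmem
        have hPA : P ∈ A B := ⟨_, hP⟩
        have h1 : hom 1 (P * M f - M f * P) (mem_A_aux hmem) =
            hom 1 P (mem_A_aux hPA) * hom 1 (M f) (mem_A_aux (M_mem f)) -
            hom 1 (M f) (mem_A_aux (M_mem f)) * hom 1 P (mem_A_aux hPA) := by
          apply Subtype.ext
          show (single 1 (P * M f - M f * P) : EG B) = single 1 P * single 1 (M f) -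
            single 1 (M f) * single 1 P
          rw [single_mul_single, single_mul_single, mul_one, single_sub]
        rw [h1]
        exact sub_mem (I.mul_mem_right _ _ (hPI hPA)) (I.mul_mem_left _ _ (hPI hPA))
  -- the first element of `J`
  have hfirst : ∃ n : ℕ, ∃ P : E B, IsDiffOp n P ∧ P ≠ 0 ∧
      ∀ hP : P ∈ A B, hom 1 P (mem_A_aux hP) ∈ I := by
    obtain ⟨n, hn⟩ := y.2 g
    refine ⟨n, (y : EG B).coeff g * rho g⁻¹, hn, ?_, ?_⟩
    · intro h0
      apply hy0
      have h1 : (y : EG B).coeff g = 0 := by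
        calc (y : EG B).coeff g = (y : EG B).coeff g * (rho g⁻¹ * rho g) := by
              rw [rho_inv_mul, mul_one]
          _ = ((y : EG B).coeff g * rho g⁻¹) * rho g := by rw [mul_assoc]
          _ = 0 := by rw [h0, zero_mul]
      rw [eq_hom hyg]
      apply Subtype.ext
      show (single g ((y : EG B).coeff g) : EG B) = 0
      rw [h1, single_zero]
    · intro hP
      have h2 : hom 1 ((y : EG B).coeff g * rho g⁻¹) (mem_A_aux hP) =
          y * hom g⁻¹ (rho g⁻¹) (rho_mem_A g⁻¹) := by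
        conv_rhs => rw [eq_hom hyg]
        rw [hom_mul]
        exact hom_congr _ _ (mul_inv_cancel g).symm rfl
      rw [h2]
      exact I.mul_mem_right _ _ hyI
  obtain ⟨n, P, hn, hP0, hPI⟩ := hfirst
  obtain ⟨f₀, hf₀, hf₀I⟩ := hlow n P hn hP0 hPI
  let J : Ideal B :=
    { carrier := {f | hom 1 (M f) (mem_A_aux (M_mem f)) ∈ I}
      add_mem' := by
        intro a b ha hb
        have h1 : hom 1 (M (a + b)) (mem_A_aux (M_mem (a + b))) =
            hom 1 (M a) (mem_A_aux (M_mem a)) + hom 1 (M b) (mem_A_aux (M_mem b)) := by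
          apply Subtype.ext
          show (single 1 (M (a + b)) : EG B) = single 1 (M a) + single 1 (M b)
          rw [← single_add]
          congr 1
          ext x
          simp [M_apply, add_mul]
        show hom 1 (M (a + b)) _ ∈ I
        rw [h1]
        exact add_mem ha hb
      zero_mem' := by
        have h1 : hom 1 (M 0) (mem_A_aux (M_mem (0 : B))) = 0 := by
          apply Subtype.ext
          show (single 1 (M 0) : EG B) = 0
          have : M (0 : B) = 0 := by ext x; simp [M_apply]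
          rw [this, single_zero]
        show hom 1 (M 0) _ ∈ I
        rw [h1]
        exact zero_mem _
      smul_mem' := by
        intro c a ha
        have h1 : hom 1 (M (c • a)) (mem_A_aux (M_mem (c • a))) =
            hom 1 (M c) (mem_A_aux (M_mem c)) * hom 1 (M a) (mem_A_aux (M_mem a)) := by
          rw [hom_mul]
          exact hom_congr _ _ (mul_one 1).symm (by rw [smul_eq_mul, M_mul])
        show hom 1 (M (c • a)) _ ∈ I
        rw [h1]
        exact I.mul_mem_left _ _ ha }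
  have hJ : ∀ f, f ∈ J ↔ hom 1 (M f) (mem_A_aux (M_mem f)) ∈ I := fun f => Iff.rfl
  have h1J : (1 : B) ∈ J := by
    apply hs J
    · intro h
      apply hf₀
      have : f₀ ∈ J := hf₀I
      rw [h] at this
      exact this
    · intro g f hf
      rw [hJ] at hf ⊢
      have h2 : hom 1 (M (g f)) (mem_A_aux (M_mem (g f))) =
          hom g (rho g) (rho_mem_A g) * hom 1 (M f) (mem_A_aux (M_mem f)) *
            hom g⁻¹ (rho g⁻¹) (rho_mem_A g⁻¹) := by
        rw [hom_mul, hom_mul]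
        refine hom_congr _ _ (by simp) ?_
        rw [rho_M, mul_assoc, rho_mul_inv, mul_one]
      rw [h2]
      exact I.mul_mem_right _ _ (I.mul_mem_left _ _ hf)
  rw [hJ] at h1J
  have h3 : hom 1 (M (1 : B)) (mem_A_aux (M_mem 1)) = 1 := by
    rw [← hom_one]
    apply hom_congr _ _ rfl
    ext x
    simp [M_apply]
  rw [h3] at h1J
  rw [eq_top_iff]
  intro x _
  have h4 := I.mul_mem_left x 1 h1J
  have h5 : x * 1 = x := mul_one x
  rwa [h5] at h4

/-- Non-simplicity. -/
theorem notSimple [Nontrivial B] (g : Au B) (hg : g ≠ 1) (χ : B) (hχ : χ ≠ 0)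
    (h : ∀ f, χ * (g f - f) = 0) : ∃ I : TwoSidedIdeal (R B), I ≠ ⊥ ∧ I ≠ ⊤ := by
  let ε : EG B →+* E B := liftNCRingHom (RingHom.id (E B)) (1 : Au B →* E B)
    (fun x y => Commute.one_right x)
  have hε : ∀ (k : Au B) (P : E B), ε (single k P) = P := by
    intro k P
    simp [ε, liftNCRingHom]
  let ε' : R B →+* E B := ε.comp (R B).subtype
  refine ⟨TwoSidedIdeal.ker ε', ?_, ?_⟩
  · intro hbot
    have hmem : M χ * rho g * rho g⁻¹ ∈ A B := by
      rw [mul_assoc, rho_mul_inv, mul_one]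
      exact M_mem χ
    let z : R B := hom g (M χ * rho g) hmem - hom 1 (M χ) (mem_A_aux (M_mem χ))
    have hz : z ∈ TwoSidedIdeal.ker ε' := by
      rw [TwoSidedIdeal.mem_ker]
      show ε (single g (M χ * rho g) - single 1 (M χ)) = 0
      rw [map_sub, hε, hε]
      ext x
      have := h x
      rw [mul_sub] at this
      simpa [M_apply, rho_apply] using this
    rw [hbot] at hz
    have hz0 : z = 0 := hz
    have h1 : (z : EG B).coeff 1 = 0 := by rw [hz0]; rfl
    have h2 : (z : EG B).coeff 1 = -M χ := by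
      show ((single g (M χ * rho g) : EG B) - single 1 (M χ)).coeff 1 = _
      rw [coeff_sub, Finsupp.sub_apply, coeff_single, coeff_single, Finsupp.single_eq_of_ne' hg,
        Finsupp.single_eq_same, zero_sub]
    rw [h2] at h1
    apply hχ
    have h3 := congrArg (fun Q : E B => Q 1) h1
    simpa [M_apply] using h3
  · intro htop
    have h1 : (1 : R B) ∈ TwoSidedIdeal.ker ε' := by rw [htop]; trivial
    rw [TwoSidedIdeal.mem_ker, map_one] at h1
    have h2 := congrArg (fun Q : E B => Q 1) h1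
    simp at h2

/-- The general construction. -/
theorem main (B : Type) [CommRing B] [Algebra ℝ B] [IsReduced B] [Nontrivial B]
    (hs : ∀ J : Ideal B, J ≠ ⊥ → (∀ (g : Au B), ∀ f ∈ J, g f ∈ J) → (1 : B) ∈ J)
    (hcen : ∀ t : B, (∀ P ∈ A B, M t * P = P * M t) → ∃ c : ℝ, t = algebraMap ℝ B c)
    (g : Au B) (hg : g ≠ 1) (χ : B) (hχ : χ ≠ 0) (h : ∀ f, χ * (g f - f) = 0) :
    ∃ (G R : Type) (_ : Group G) (_ : Ring R) (𝒜 : G → AddSubgroup R),
      (1 : R) ≠ 0 ∧ IsGrading 𝒜 ∧ IsStrong 𝒜 ∧ IsGradedSimple 𝒜 ∧ CentralizerEqCenter 𝒜 ∧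
      ∃ I : TwoSidedIdeal R, I ≠ ⊥ ∧ I ≠ ⊤ := by
  refine ⟨Au B, R B, inferInstance, inferInstance, comp B, ?_, isGrading, isStrong,
    gradedSimple hs, centralizer hcen, notSimple g hg χ hχ h⟩
  intro h
  have h1 : ((1 : R B) : EG B).coeff 1 = 0 := by rw [h]; rfl
  have h2 : ((1 : EG B)).coeff 1 = 1 := by rw [one_def, coeff_single, Finsupp.single_eq_same]
  have h3 : (1 : E B) = 0 := by rw [← h2]; exact h1
  have h4 := congrArg (fun Q : E B => Q 1) h3
  simp at h4

end algebra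

section torus

open scoped ContDiff

/-- Smooth functions on the plane that are `1`-periodic in both variables. -/
def IsTorus (f : ℝ × ℝ → ℝ) : Prop :=
  ContDiff ℝ ∞ f ∧ ∀ p : ℝ × ℝ, f (p + (1, 0)) = f p ∧ f (p + (0, 1)) = f p

/-- The algebra of smooth functions on the torus. -/
def T : Subalgebra ℝ (ℝ × ℝ → ℝ) where
  carrier := {f | IsTorus f}
  mul_mem' := fun ⟨h1, h2⟩ ⟨h3, h4⟩ => ⟨h1.mul h3, fun p => by
    simp only [Pi.mul_apply]
    rw [(h2 p).1, (h2 p).2, (h4 p).1, (h4 p).2]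
    exact ⟨rfl, rfl⟩⟩
  add_mem' := fun ⟨h1, h2⟩ ⟨h3, h4⟩ => ⟨h1.add h3, fun p => by
    simp only [Pi.add_apply]
    rw [(h2 p).1, (h2 p).2, (h4 p).1, (h4 p).2]
    exact ⟨rfl, rfl⟩⟩
  algebraMap_mem' := fun c => ⟨contDiff_const, fun p => ⟨rfl, rfl⟩⟩

theorem T_ext {f g : T} (h : ∀ p, (f : ℝ × ℝ → ℝ) p = (g : ℝ × ℝ → ℝ) p) : f = g :=
  Subtype.ext (funext h)

theorem T_mul (f g : T) (p : ℝ × ℝ) :
    ((f * g : T) : ℝ × ℝ → ℝ) p = (f : ℝ × ℝ → ℝ) p * (g : ℝ × ℝ → ℝ) p := rfl

theorem T_add (f g : T) (p : ℝ × ℝ) :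
    ((f + g : T) : ℝ × ℝ → ℝ) p = (f : ℝ × ℝ → ℝ) p + (g : ℝ × ℝ → ℝ) p := rfl

theorem T_sub (f g : T) (p : ℝ × ℝ) :
    ((f - g : T) : ℝ × ℝ → ℝ) p = (f : ℝ × ℝ → ℝ) p - (g : ℝ × ℝ → ℝ) p := rfl

theorem T_one (p : ℝ × ℝ) : ((1 : T) : ℝ × ℝ → ℝ) p = 1 := rfl

theorem T_zero (p : ℝ × ℝ) : ((0 : T) : ℝ × ℝ → ℝ) p = 0 := rfl

theorem T_pow (f : T) (n : ℕ) (p : ℝ × ℝ) :
    ((f ^ n : T) : ℝ × ℝ → ℝ) p = ((f : ℝ × ℝ → ℝ) p) ^ n := rfl

instance : Nontrivial T := ⟨0, 1, fun h => by
  have := congrArg (fun f : T => (f : ℝ × ℝ → ℝ) 0) h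
  simp [T_zero, T_one] at this⟩

instance : IsReduced T := ⟨fun f hf => by
  obtain ⟨n, hn⟩ := hf
  apply T_ext
  intro p
  have h1 : ((f : ℝ × ℝ → ℝ) p) ^ n = 0 := by rw [← T_pow, hn, T_zero]
  have hn0 : n ≠ 0 := by rintro rfl; simp at h1
  exact (pow_eq_zero_iff hn0).1 h1⟩

/-- The directional derivative. -/
noncomputable def dv (v : ℝ × ℝ) : E T where
  toFun f := ⟨fun p => fderiv ℝ (f : ℝ × ℝ → ℝ) p v, by
    obtain ⟨h1, h2⟩ := f.2
    refine ⟨(h1.fderiv_right (m := ∞) (by simp)).clm_apply contDiff_const, fun p => ?_⟩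
    have e1 : (fun q => (f : ℝ × ℝ → ℝ) (q + (1, 0))) = f := funext fun q => (h2 q).1
    have e2 : (fun q => (f : ℝ × ℝ → ℝ) (q + (0, 1))) = f := funext fun q => (h2 q).2
    constructor
    · show fderiv ℝ (f : ℝ × ℝ → ℝ) (p + (1, 0)) v = fderiv ℝ (f : ℝ × ℝ → ℝ) p v
      rw [← fderiv_comp_add_right, e1]
    · show fderiv ℝ (f : ℝ × ℝ → ℝ) (p + (0, 1)) v = fderiv ℝ (f : ℝ × ℝ → ℝ) p v
      rw [← fderiv_comp_add_right, e2]⟩
  map_add' f g := by
    apply T_ext
    intro p
    have h1 : DifferentiableAt ℝ (f : ℝ × ℝ → ℝ) p := (f.2.1.differentiable (by simp)) p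
    have h2 : DifferentiableAt ℝ (g : ℝ × ℝ → ℝ) p := (g.2.1.differentiable (by simp)) p
    show fderiv ℝ ((f : ℝ × ℝ → ℝ) + (g : ℝ × ℝ → ℝ)) p v = _
    rw [fderiv_add h1 h2]
    rfl
  map_smul' c f := by
    apply T_ext
    intro p
    have h1 : DifferentiableAt ℝ (f : ℝ × ℝ → ℝ) p := (f.2.1.differentiable (by simp)) p
    show fderiv ℝ (c • (f : ℝ × ℝ → ℝ)) p v = _
    rw [fderiv_const_smul h1]
    rfl

theorem dv_apply (v : ℝ × ℝ) (f : T) (p : ℝ × ℝ) :
    ((dv v f : T) : ℝ × ℝ → ℝ) p = fderiv ℝ (f : ℝ × ℝ → ℝ) p v := rfl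

theorem dv_mul (v : ℝ × ℝ) (f g : T) : dv v (f * g) = f * dv v g + dv v f * g := by
  apply T_ext
  intro p
  have h1 : DifferentiableAt ℝ (f : ℝ × ℝ → ℝ) p := (f.2.1.differentiable (by simp)) p
  have h2 : DifferentiableAt ℝ (g : ℝ × ℝ → ℝ) p := (g.2.1.differentiable (by simp)) p
  rw [dv_apply, T_add, T_mul, T_mul, dv_apply, dv_apply]
  show fderiv ℝ ((f : ℝ × ℝ → ℝ) * (g : ℝ × ℝ → ℝ)) p v = _
  rw [fderiv_mul h1 h2]
  simp [mul_comm]

theorem dv_mem (v : ℝ × ℝ) : dv v ∈ A T := by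
  refine ⟨1, fun f => ?_⟩
  have h : dv v * M f - M f * dv v = M (dv v f) := by
    ext1 g
    rw [LinearMap.sub_apply, Module.End.mul_apply, Module.End.mul_apply, M_apply, M_apply, M_apply,
      dv_mul]
    ring
  rw [h]
  exact isDiffOp_M _

theorem torus_centre (t : T) (ht : ∀ P ∈ A T, M t * P = P * M t) :
    ∃ c : ℝ, t = algebraMap ℝ T c := by
  have h1 : ∀ v, dv v t = 0 := by
    intro v
    have h2 := congrArg (fun Q : E T => Q 1) (ht (dv v) (dv_mem v))
    simp only [Module.End.mul_apply, M_apply] at h2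
    have h3 := dv_mul v t 1
    rw [h3] at h2
    have h4 : dv v t * 1 = 0 := by
      have h5 : t * dv v 1 + 0 = t * dv v 1 + dv v t * 1 := by rw [add_zero]; exact h2
      exact (add_left_cancel h5).symm
    rwa [mul_one] at h4
  have h2 : ∀ p, fderiv ℝ (t : ℝ × ℝ → ℝ) p = 0 := by
    intro p
    apply ContinuousLinearMap.ext
    intro v
    rw [← dv_apply, h1 v]
    rfl
  refine ⟨(t : ℝ × ℝ → ℝ) 0, ?_⟩
  apply T_ext
  intro p
  exact is_const_of_fderiv_eq_zero (t.2.1.differentiable (by simp)) h2 p 0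

/-- The shear-translation `(x, y) ↦ (x + a, y + s x)`. -/
def shm (a : ℝ) (s : ℝ → ℝ) (p : ℝ × ℝ) : ℝ × ℝ := (p.1 + a, p.2 + s p.1)

theorem shm_smooth (a : ℝ) (s : ℝ → ℝ) (hs : ContDiff ℝ ∞ s) : ContDiff ℝ ∞ (shm a s) :=
  (contDiff_fst.add contDiff_const).prodMk (contDiff_snd.add (hs.comp contDiff_fst))

theorem shm_torus (a : ℝ) (s : ℝ → ℝ) (hs : ContDiff ℝ ∞ s) (hp : ∀ x, s (x + 1) = s x)
    {f : ℝ × ℝ → ℝ} (hf : IsTorus f) : IsTorus (f ∘ shm a s) := by
  refine ⟨hf.1.comp (shm_smooth a s hs), fun p => ?_⟩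
  constructor
  · have h : shm a s (p + (1, 0)) = shm a s p + (1, 0) := by
      ext
      · show p.1 + 1 + a = p.1 + a + 1
        ring
      · show p.2 + 0 + s (p.1 + 1) = p.2 + s p.1 + 0
        rw [hp]; ring
    rw [Function.comp_apply, h, (hf.2 _).1, Function.comp_apply]
  · have h : shm a s (p + (0, 1)) = shm a s p + (0, 1) := by
      ext
      · show p.1 + 0 + a = p.1 + a + 0
        ring
      · show p.2 + 1 + s (p.1 + 0) = p.2 + s p.1 + 1
        rw [add_zero]; ring
    rw [Function.comp_apply, h, (hf.2 _).2, Function.comp_apply]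

/-- The inverse shear amount. -/
def sinv (a : ℝ) (s : ℝ → ℝ) (x : ℝ) : ℝ := -s (x - a)

theorem sinv_smooth (a : ℝ) (s : ℝ → ℝ) (hs : ContDiff ℝ ∞ s) : ContDiff ℝ ∞ (sinv a s) :=
  (hs.comp (contDiff_id.sub contDiff_const)).neg

theorem sinv_periodic (a : ℝ) (s : ℝ → ℝ) (hp : ∀ x, s (x + 1) = s x) (x : ℝ) :
    sinv a s (x + 1) = sinv a s x := by
  unfold sinv
  rw [show x + 1 - a = (x - a) + 1 by ring, hp]

theorem shm_left (a : ℝ) (s : ℝ → ℝ) (p : ℝ × ℝ) : shm a s (shm (-a) (sinv a s) p) = p := by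
  apply Prod.ext
  · show p.1 + -a + a = p.1
    ring
  · show p.2 + -s (p.1 - a) + s (p.1 + -a) = p.2
    rw [← sub_eq_add_neg p.1 a]; ring

theorem shm_right (a : ℝ) (s : ℝ → ℝ) (p : ℝ × ℝ) : shm (-a) (sinv a s) (shm a s p) = p := by
  apply Prod.ext
  · show p.1 + a + -a = p.1
    ring
  · show p.2 + s p.1 + -s (p.1 + a - a) = p.2
    rw [show p.1 + a - a = p.1 by ring]; ring

theorem T_prop (f : T) : IsTorus (f : ℝ × ℝ → ℝ) := f.2

/-- The automorphism of the algebra of functions given by a shear-translation. -/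
def sh (a : ℝ) (s : ℝ → ℝ) (hs : ContDiff ℝ ∞ s) (hp : ∀ x, s (x + 1) = s x) : Au T where
  toFun f := ⟨(f : ℝ × ℝ → ℝ) ∘ shm a s, shm_torus a s hs hp (T_prop f)⟩
  invFun f := ⟨(f : ℝ × ℝ → ℝ) ∘ shm (-a) (sinv a s),
    shm_torus _ _ (sinv_smooth a s hs) (sinv_periodic a s hp) (T_prop f)⟩
  left_inv f := by
    apply T_ext
    intro p
    show (f : ℝ × ℝ → ℝ) (shm a s (shm (-a) (sinv a s) p)) = _
    rw [shm_left]
  right_inv f := by
    apply T_ext
    intro p
    show (f : ℝ × ℝ → ℝ) (shm (-a) (sinv a s) (shm a s p)) = _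
    rw [shm_right]
  map_mul' f g := rfl
  map_add' f g := rfl
  commutes' c := rfl

theorem sh_apply (a : ℝ) (s : ℝ → ℝ) (hs : ContDiff ℝ ∞ s) (hp : ∀ x, s (x + 1) = s x) (f : T)
    (p : ℝ × ℝ) : ((sh a s hs hp f : T) : ℝ × ℝ → ℝ) p = (f : ℝ × ℝ → ℝ) (p.1 + a, p.2 + s p.1) :=
  rfl

theorem int_shift (f : T) (m n : ℤ) (p : ℝ × ℝ) :
    (f : ℝ × ℝ → ℝ) (p.1 + m, p.2 + n) = (f : ℝ × ℝ → ℝ) p := by
  have h1 : ∀ (y : ℝ), Function.Periodic (fun x => (f : ℝ × ℝ → ℝ) (x, y)) 1 := by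
    intro y x
    have := (f.2.2 (x, y)).1
    simpa using this
  have h2 : ∀ (x : ℝ), Function.Periodic (fun y => (f : ℝ × ℝ → ℝ) (x, y)) 1 := by
    intro x y
    have := (f.2.2 (x, y)).2
    simpa using this
  have e1 := (h1 (p.2 + n)).int_mul m p.1
  have e2 := (h2 p.1).int_mul n p.2
  simp only [mul_one] at e1 e2
  rw [e1, e2]

theorem torus_simple (J : Ideal T) (hJ : J ≠ ⊥) (hst : ∀ (g : Au T), ∀ f ∈ J, g f ∈ J) :
    (1 : T) ∈ J := by
  classical
  obtain ⟨h, hhJ, hh0⟩ := Submodule.exists_mem_ne_zero_of_ne_bot hJ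
  obtain ⟨p₀, hp₀⟩ : ∃ p, (h : ℝ × ℝ → ℝ) p ≠ 0 := by
    by_contra hcon
    push Not at hcon
    exact hh0 (T_ext hcon)
  -- translates of the square of `h`
  let tr : ℝ × ℝ → Au T := fun q => sh q.1 (fun _ => q.2) contDiff_const (fun _ => rfl)
  let F : ℝ × ℝ → T := fun q => tr (p₀ - q) (h * h)
  have hF : ∀ q p, (F q : ℝ × ℝ → ℝ) p = ((h : ℝ × ℝ → ℝ) (p + (p₀ - q))) ^ 2 := by
    intro q p
    rw [pow_two]
    rfl
  have hFJ : ∀ q, F q ∈ J := fun q => hst _ _ (J.mul_mem_left h hhJ)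
  have hFpos : ∀ q p, 0 ≤ (F q : ℝ × ℝ → ℝ) p := fun q p => by rw [hF]; positivity
  have hK : IsCompact (Set.Icc (0 : ℝ) 1 ×ˢ Set.Icc (0 : ℝ) 1) := isCompact_Icc.prod isCompact_Icc
  have hcont : ∀ q, Continuous (F q : ℝ × ℝ → ℝ) := fun q => (F q).2.1.continuous
  obtain ⟨t, -, ht⟩ := hK.elim_nhds_subcover (fun q => {p | 0 < (F q : ℝ × ℝ → ℝ) p}) (by
    intro q _
    apply (isOpen_lt continuous_const (hcont q)).mem_nhds
    show 0 < (F q : ℝ × ℝ → ℝ) q
    rw [hF]
    have : q + (p₀ - q) = p₀ := by abel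
    rw [this]
    positivity)
  let u : T := ∑ q ∈ t, F q
  have huJ : u ∈ J := J.sum_mem fun q _ => hFJ q
  have hu : ∀ p, (u : ℝ × ℝ → ℝ) p = ∑ q ∈ t, (F q : ℝ × ℝ → ℝ) p := by
    intro p
    have : (u : ℝ × ℝ → ℝ) = ∑ q ∈ t, (F q : ℝ × ℝ → ℝ) := by
      simp [u]
    rw [this, Finset.sum_apply]
  have hupos : ∀ p, 0 < (u : ℝ × ℝ → ℝ) p := by
    intro p
    rw [← int_shift u (-⌊p.1⌋) (-⌊p.2⌋) p, hu]
    have hmem : (p.1 + ((-⌊p.1⌋ : ℤ) : ℝ), p.2 + ((-⌊p.2⌋ : ℤ) : ℝ)) ∈
        Set.Icc (0 : ℝ) 1 ×ˢ Set.Icc (0 : ℝ) 1 := by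
      push_cast
      rw [← sub_eq_add_neg, ← sub_eq_add_neg]
      exact ⟨⟨Int.fract_nonneg _, (Int.fract_lt_one _).le⟩, ⟨Int.fract_nonneg _, (Int.fract_lt_one _).le⟩⟩
    have h1 := ht hmem
    rw [Set.mem_iUnion₂] at h1
    obtain ⟨q, hq, hpos⟩ := h1
    exact Finset.sum_pos' (fun q _ => hFpos q _) ⟨q, hq, hpos⟩
  let w : T := ⟨fun p => ((u : ℝ × ℝ → ℝ) p)⁻¹, u.2.1.inv (fun p => (hupos p).ne'), fun p => by
    show ((u : ℝ × ℝ → ℝ) _)⁻¹ = ((u : ℝ × ℝ → ℝ) p)⁻¹ ∧ ((u : ℝ × ℝ → ℝ) _)⁻¹ = ((u : ℝ × ℝ → ℝ) p)⁻¹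
    rw [(u.2.2 p).1, (u.2.2 p).2]
    exact ⟨rfl, rfl⟩⟩
  have hwu : w * u = 1 := by
    apply T_ext
    intro p
    rw [T_mul, T_one]
    exact inv_mul_cancel₀ (hupos p).ne'
  rw [← hwu]
  exact J.mul_mem_left w huJ

theorem sin_shift (x : ℝ) : Real.sin (2 * Real.pi * (x + 1)) = Real.sin (2 * Real.pi * x) := by
  rw [mul_add, mul_one, Real.sin_add_two_pi]

theorem cos_shift (x : ℝ) : Real.cos (2 * Real.pi * (x + 1)) = Real.cos (2 * Real.pi * x) := by
  rw [mul_add, mul_one, Real.cos_add_two_pi]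

/-- The shear amount. -/
noncomputable def sa (x : ℝ) : ℝ := Real.smoothTransition (Real.sin (2 * Real.pi * x)) / 2

theorem sa_smooth : ContDiff ℝ ∞ sa := by
  have h1 : ContDiff ℝ ∞ fun x : ℝ => Real.sin (2 * Real.pi * x) :=
    Real.contDiff_sin.comp (contDiff_const.mul contDiff_id)
  exact (Real.smoothTransition.contDiff.comp h1).div_const 2

theorem sa_periodic (x : ℝ) : sa (x + 1) = sa x := by
  unfold sa
  rw [sin_shift]

/-- The bump function. -/
noncomputable def bump : T :=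
  ⟨fun p => Real.smoothTransition (-Real.sin (2 * Real.pi * p.1)), by
    have h1 : ContDiff ℝ ∞ fun p : ℝ × ℝ => -Real.sin (2 * Real.pi * p.1) :=
      (Real.contDiff_sin.comp (contDiff_const.mul contDiff_fst)).neg
    refine ⟨Real.smoothTransition.contDiff.comp h1, fun p => ⟨?_, ?_⟩⟩
    · show Real.smoothTransition (-Real.sin (2 * Real.pi * (p.1 + 1))) = _
      rw [sin_shift]
    · show Real.smoothTransition (-Real.sin (2 * Real.pi * (p.1 + 0))) = _
      rw [add_zero]⟩

/-- The function `cos (2 π y)`. -/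
noncomputable def cosy : T :=
  ⟨fun p => Real.cos (2 * Real.pi * p.2), by
    refine ⟨Real.contDiff_cos.comp (contDiff_const.mul contDiff_snd), fun p => ⟨?_, ?_⟩⟩
    · show Real.cos (2 * Real.pi * (p.2 + 0)) = _
      rw [add_zero]
    · show Real.cos (2 * Real.pi * (p.2 + 1)) = _
      rw [cos_shift]⟩

/-- **A graded simple strongly graded ring with `C_R(R_e) = Z(R_e)` that is not simple.** -/
theorem result : ∃ (G R : Type) (_ : Group G) (_ : Ring R) (𝒜 : G → AddSubgroup R),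
    (1 : R) ≠ 0 ∧ IsGrading 𝒜 ∧ IsStrong 𝒜 ∧ IsGradedSimple 𝒜 ∧ CentralizerEqCenter 𝒜 ∧
      ∃ I : TwoSidedIdeal R, I ≠ ⊥ ∧ I ≠ ⊤ := by
  apply main T torus_simple torus_centre (sh 0 sa sa_smooth sa_periodic) _ bump
  · intro h
    have h1 := congrArg (fun f : T => (f : ℝ × ℝ → ℝ) (3 / 4, 0)) h
    have h2 : Real.smoothTransition (-Real.sin (2 * Real.pi * (3 / 4))) = 0 := h1
    have h3 : Real.sin (2 * Real.pi * (3 / 4)) = -1 := by
      rw [show 2 * Real.pi * (3 / 4) = Real.pi / 2 + Real.pi by ring, Real.sin_add_pi,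
        Real.sin_pi_div_two]
    rw [h3, neg_neg, Real.smoothTransition.one_of_one_le le_rfl] at h2
    exact one_ne_zero h2
  · intro f
    apply T_ext
    intro p
    rw [T_mul, T_sub, T_zero, sh_apply, add_zero]
    by_cases hs : 0 ≤ Real.sin (2 * Real.pi * p.1)
    · have h1 : (bump : ℝ × ℝ → ℝ) p = 0 :=
        Real.smoothTransition.zero_of_nonpos (by linarith)
      rw [h1, zero_mul]
    · have h1 : sa p.1 = 0 := by
        unfold sa
        rw [Real.smoothTransition.zero_of_nonpos (by linarith), zero_div]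
      rw [h1, add_zero, Prod.mk.eta, sub_self, mul_zero]
  · intro h
    have h1 : sh 0 sa sa_smooth sa_periodic cosy = cosy := by rw [h]; rfl
    have h2 := congrArg (fun f : T => (f : ℝ × ℝ → ℝ) (1 / 4, 0)) h1
    simp only [sh_apply] at h2
    have h3 : sa (1 / 4) = 1 / 2 := by
      unfold sa
      rw [show 2 * Real.pi * (1 / 4) = Real.pi / 2 by ring, Real.sin_pi_div_two,
        Real.smoothTransition.one_of_one_le le_rfl]
    have h4 : Real.cos (2 * Real.pi * (0 + sa (1 / 4))) = Real.cos (2 * Real.pi * 0) := h2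
    rw [h3] at h4
    rw [show 2 * Real.pi * (0 + 1 / 2) = Real.pi by ring, Real.cos_pi, mul_zero, Real.cos_zero] at h4
    norm_num at h4

end torus

end Pool.Agent.Results.MP_eab7e5_al.GradedSimpleNotSimple
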